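import Pool.Agent.W610.HY.Stm2

/-!
# Project HY, part NZV: the integral does not vanish when the function is unbounded near the centre
-/

set_option autoImplicit false

namespace Pool.Agent.W418.HY.NZV

open Pool.Agent.W610.HY
open MeasureTheory Set Metric Filter Topology

theorem norm_u (θ : ℝ) : ‖circleMap 0 1 θ‖ = 1 := by
  simp [circleMap]

theorem sub_c (c : ℂ) (r θ : ℝ) : circleMap c r θ - c = r * circleMap 0 1 θ := by
  simp [circleMap]

theorem norm_sub_c (c : ℂ) (r θ : ℝ) (hr : 0 < r) : ‖circleMap c r θ - c‖ = r := by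
  rw [sub_c, norm_mul, norm_u, Complex.norm_real, mul_one, Real.norm_eq_abs, abs_of_pos hr]

theorem far (c l : ℂ) (r θ : ℝ) (hr : 0 < r) (hl : ‖l - c‖ < r / 2) :
    r / 2 ≤ ‖circleMap c r θ - l‖ := by
  have h1 : circleMap c r θ - c = (circleMap c r θ - l) + (l - c) := by ring
  have h2 := norm_add_le (circleMap c r θ - l) (l - c)
  rw [← h1, norm_sub_c c r θ hr] at h2
  linarith

theorem ae_uIoc {p : ℝ → Prop}
    (hp : ∀ᵐ θ ∂(volume.restrict (Ioc (0:ℝ) (2 * Real.pi))), p θ) :
    ∀ᵐ θ, θ ∈ Set.uIoc (0:ℝ) (2 * Real.pi) → p θ := by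
  rw [uIoc_of_le Real.two_pi_pos.le]
  exact (ae_restrict_iff' measurableSet_Ioc).1 hp

theorem main : NZV := by
  intro E _ _ _ P R e c r h hP hF hR hG hub hIV
  have hr := hG.pos
  have hpi := Real.pi_pos
  have hcm : Continuous (circleMap c r) := continuous_circleMap c r
  have hcm0 : Continuous (circleMap 0 1) := continuous_circleMap 0 1
  set μ : Measure ℝ := volume.restrict (Ioc (0:ℝ) (2 * Real.pi)) with hμ
  -- measurability of the vector-valued function
  have hFm : AEStronglyMeasurable (fun θ => R (circleMap c r θ) e) μ := by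
    set S : Set ℝ := circleMap c r ⁻¹' P with hS
    have hSo : IsOpen S := hP.preimage hcm
    have h1 : ContinuousOn (fun θ => R (circleMap c r θ) e) S :=
      hF.comp hcm.continuousOn (fun θ hθ => hθ)
    have h2 : AEStronglyMeasurable (fun θ => R (circleMap c r θ) e) (μ.restrict S) :=
      h1.aestronglyMeasurable hSo.measurableSet
    rwa [Measure.restrict_eq_self_of_ae_mem (s := S) hG.res] at h2
  have hgm : AEStronglyMeasurable (fun θ => h θ * circleMap 0 1 θ) μ :=
    (hG.meas.mul hcm0.measurable).aestronglyMeasurable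
  -- integrability
  have hint1 : IntervalIntegrable (fun θ => (h θ * circleMap 0 1 θ) • R (circleMap c r θ) e)
      volume 0 (2 * Real.pi) := by
    rw [intervalIntegrable_iff_integrableOn_Ioc_of_le Real.two_pi_pos.le]
    refine Integrable.of_bound (hgm.smul hFm) 1 ?_
    · filter_upwards [hG.bound] with θ hθ
      show ‖(h θ * circleMap 0 1 θ) • R (circleMap c r θ) e‖ ≤ 1
      rw [norm_smul, norm_mul, norm_u, mul_one]
      exact hθ
  have hint2 : ∀ l : ℂ, ‖l - c‖ < r / 2 →
      IntervalIntegrable (fun θ => h θ * circleMap 0 1 θ / (circleMap c r θ - l))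
        volume 0 (2 * Real.pi) := by
    intro l hl
    rw [intervalIntegrable_iff_integrableOn_Ioc_of_le Real.two_pi_pos.le]
    refine Integrable.of_bound
      ((hG.meas.mul hcm0.measurable).div (hcm.measurable.sub_const l)).aestronglyMeasurable
      (2 / r) ?_
    · filter_upwards [hG.le_one] with θ hθ
      show ‖h θ * circleMap 0 1 θ / (circleMap c r θ - l)‖ ≤ 2 / r
      rw [norm_div, norm_mul, norm_u, mul_one]
      have h1 := far c l r θ hr hl
      calc ‖h θ‖ / ‖circleMap c r θ - l‖ ≤ 1 / (r / 2) :=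
            div_le_div₀ zero_le_one hθ (by positivity) h1
        _ = 2 / r := by field_simp
  set J : ℂ → ℂ := fun l => ∫ θ in (0:ℝ)..(2 * Real.pi),
    h θ * circleMap 0 1 θ / (circleMap c r θ - l) with hJ
  -- the main estimate
  have key : ∀ l ∈ P, ‖l - c‖ < r / 2 → ‖J l‖ * ‖R l e‖ ≤ 4 * Real.pi / r := by
    intro l hlP hl
    have e1 : (∫ θ in (0:ℝ)..(2 * Real.pi),
          (h θ * circleMap 0 1 θ / (circleMap c r θ - l)) • R (circleMap c r θ) e)
        = J l • R l e := by
      have e2 : (∫ θ in (0:ℝ)..(2 * Real.pi),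
            (h θ * circleMap 0 1 θ / (circleMap c r θ - l)) • R (circleMap c r θ) e)
          = ∫ θ in (0:ℝ)..(2 * Real.pi),
            ((h θ * circleMap 0 1 θ / (circleMap c r θ - l)) • R l e
              - R l ((h θ * circleMap 0 1 θ) • R (circleMap c r θ) e)) := by
        apply intervalIntegral.integral_congr_ae
        filter_upwards [ae_uIoc hG.res] with θ hθ hmem
        have hz := hθ hmem
        have hne : circleMap c r θ - l ≠ 0 := by
          intro h0
          have := far c l r θ hr hl
          rw [h0, norm_zero] at this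
          linarith
        have hid := hR (circleMap c r θ) hz l hlP
        have hid2 : R (circleMap c r θ) e = R l e
            - (circleMap c r θ - l) • R l (R (circleMap c r θ) e) := by
          rw [← hid]; abel
        rw [map_smul]
        conv_lhs => rw [hid2]
        rw [smul_sub, smul_smul, div_mul_cancel₀ _ hne]
      rw [e2, intervalIntegral.integral_sub]
      · rw [intervalIntegral.integral_smul_const,
          ContinuousLinearMap.intervalIntegral_comp_comm (R l) hint1]
        have h0 : (∫ θ in (0:ℝ)..(2 * Real.pi),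
            (h θ * circleMap 0 1 θ) • R (circleMap c r θ) e) = 0 := hIV
        rw [h0, map_zero, sub_zero]
      · exact ⟨(hint2 l hl).1.smul_const (R l e), (hint2 l hl).2.smul_const (R l e)⟩
      · exact ⟨(R l).integrable_comp hint1.1, (R l).integrable_comp hint1.2⟩
    have e3 : ‖∫ θ in (0:ℝ)..(2 * Real.pi),
          (h θ * circleMap 0 1 θ / (circleMap c r θ - l)) • R (circleMap c r θ) e‖
        ≤ (2 / r) * |2 * Real.pi - 0| := by
      apply intervalIntegral.norm_integral_le_of_norm_le_const_ae
      filter_upwards [ae_uIoc hG.bound] with θ hθ hmem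
      have hb := hθ hmem
      rw [norm_smul, norm_div, norm_mul, norm_u, mul_one]
      have h1 := far c l r θ hr hl
      calc ‖h θ‖ / ‖circleMap c r θ - l‖ * ‖R (circleMap c r θ) e‖
          = (‖h θ‖ * ‖R (circleMap c r θ) e‖) / ‖circleMap c r θ - l‖ := by ring
        _ ≤ 1 / (r / 2) := div_le_div₀ zero_le_one hb (by positivity) h1
        _ = 2 / r := by field_simp
    rw [e1, norm_smul, sub_zero, abs_of_pos Real.two_pi_pos] at e3
    calc ‖J l‖ * ‖R l e‖ ≤ 2 / r * (2 * Real.pi) := e3
      _ = 4 * Real.pi / r := by ring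
  -- the value at the centre
  have hJc : J c ≠ 0 := by
    have h1 : J c = (r : ℂ)⁻¹ * ∫ θ in (0:ℝ)..(2 * Real.pi), h θ := by
      rw [hJ, ← intervalIntegral.integral_const_mul]
      apply intervalIntegral.integral_congr
      intro θ _
      have hu : circleMap 0 1 θ ≠ 0 := by
        intro h0
        have := norm_u θ
        rw [h0, norm_zero] at this
        exact zero_ne_one this
      have hrc : (r : ℂ) ≠ 0 := by exact_mod_cast hr.ne'
      show h θ * circleMap 0 1 θ / (circleMap c r θ - c) = (r : ℂ)⁻¹ * h θ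
      rw [sub_c]
      field_simp
    rw [h1]
    exact mul_ne_zero (inv_ne_zero (by exact_mod_cast hr.ne')) hG.ne
  have hk : 0 < ‖J c‖ := norm_pos_iff.2 hJc
  have hcc : ‖c - c‖ < r / 2 := by simpa using hr
  -- continuity at the centre
  have hdiff : ∀ l : ℂ, ‖l - c‖ < r / 2 → ‖J l - J c‖ ≤ 4 * Real.pi * ‖l - c‖ / r ^ 2 := by
    intro l hl
    rw [hJ]
    show ‖(∫ θ in (0:ℝ)..(2 * Real.pi), h θ * circleMap 0 1 θ / (circleMap c r θ - l))
      - (∫ θ in (0:ℝ)..(2 * Real.pi), h θ * circleMap 0 1 θ / (circleMap c r θ - c))‖ ≤ _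
    rw [← intervalIntegral.integral_sub (hint2 l hl) (hint2 c hcc)]
    have e3 : ‖∫ θ in (0:ℝ)..(2 * Real.pi), (h θ * circleMap 0 1 θ / (circleMap c r θ - l)
          - h θ * circleMap 0 1 θ / (circleMap c r θ - c))‖
        ≤ (2 * ‖l - c‖ / r ^ 2) * |2 * Real.pi - 0| := by
      apply intervalIntegral.norm_integral_le_of_norm_le_const_ae
      filter_upwards [ae_uIoc hG.le_one] with θ hθ hmem
      have hb := hθ hmem
      have h1 := far c l r θ hr hl
      have h2 := norm_sub_c c r θ hr
      have hne : circleMap c r θ - l ≠ 0 := by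
        intro h0
        rw [h0, norm_zero] at h1
        linarith
      have hne2 : circleMap c r θ - c ≠ 0 := by
        intro h0
        rw [h0, norm_zero] at h2
        linarith
      have e4 : h θ * circleMap 0 1 θ / (circleMap c r θ - l)
          - h θ * circleMap 0 1 θ / (circleMap c r θ - c)
          = (h θ * circleMap 0 1 θ) * (l - c)
            / ((circleMap c r θ - l) * (circleMap c r θ - c)) := by
        field_simp
        ring
      rw [e4, norm_div, norm_mul, norm_mul, norm_mul, norm_u, h2, mul_one]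
      calc ‖h θ‖ * ‖l - c‖ / (‖circleMap c r θ - l‖ * r)
          ≤ 1 * ‖l - c‖ / ((r / 2) * r) := by
            apply div_le_div₀
            · positivity
            · exact mul_le_mul_of_nonneg_right hb (norm_nonneg _)
            · positivity
            · exact mul_le_mul_of_nonneg_right h1 hr.le
        _ = 2 * ‖l - c‖ / r ^ 2 := by field_simp
    rw [sub_zero, abs_of_pos Real.two_pi_pos] at e3
    calc _ ≤ 2 * ‖l - c‖ / r ^ 2 * (2 * Real.pi) := e3
      _ = 4 * Real.pi * ‖l - c‖ / r ^ 2 := by ring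
  -- the contradiction
  obtain ⟨w, hwP, hwd, hwK⟩ := hub (8 * Real.pi / (r * ‖J c‖))
    (min (r / 2) (‖J c‖ * r ^ 2 / (8 * Real.pi))) (by positivity)
  have hw1 : ‖w - c‖ < r / 2 := lt_of_lt_of_le hwd (min_le_left _ _)
  have hw2 : ‖w - c‖ < ‖J c‖ * r ^ 2 / (8 * Real.pi) := lt_of_lt_of_le hwd (min_le_right _ _)
  have hd := hdiff w hw1
  have hkey := key w hwP hw1
  have hd2 : 4 * Real.pi * ‖w - c‖ / r ^ 2 ≤ ‖J c‖ / 2 := by
    rw [div_le_iff₀ (by positivity)]
    rw [lt_div_iff₀ (by positivity)] at hw2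
    nlinarith
  have hJw : ‖J c‖ / 2 ≤ ‖J w‖ := by
    have h1 : ‖J c‖ ≤ ‖J w‖ + ‖J w - J c‖ := by
      have := norm_sub_le (J w) (J w - J c)
      simpa using this
    linarith
  have hlast : ‖J c‖ / 2 * ‖R w e‖ ≤ 4 * Real.pi / r :=
    le_trans (mul_le_mul_of_nonneg_right hJw (norm_nonneg _)) hkey
  have hK : ‖R w e‖ ≤ 8 * Real.pi / (r * ‖J c‖) := by
    rw [le_div_iff₀ (by positivity)]
    rw [le_div_iff₀ hr] at hlast
    nlinarith
  exact absurd hwK (not_lt.2 hK)

end Pool.Agent.W418.HY.NZV
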